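import Pool.Agent.H79.QF.Fin
import Pool.Agent.H1.QF.NRM
import Pool.Agent.H1.QF.SLC
import Pool.Agent.H10.QF.ADV
import Pool.Agent.H10.QF.ZOT
import Pool.Agent.H12.QF.RSM
import Pool.Agent.H13.QF.BLK
import Pool.Agent.H16.QF.PRL
import Pool.Agent.H16.QF.REC
import Pool.Agent.H16.QF.ZOC
import Pool.Agent.H27.QF.STP
import Pool.Agent.H34.QF.BLD
import Pool.Agent.H34.QF.HYB
import Pool.Agent.H34.QF.TRE
import Pool.Agent.H36.QF.AVX
import Pool.Agent.H38.QF.HA2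
import Pool.Agent.H38.QF.PRB
import Pool.Agent.H40.QF.HA1
import Pool.Agent.H45.QF.E1
import Pool.Agent.H45.QF.E3
import Pool.Agent.H45.QF.EST
import Pool.Agent.H45.QF.HIL
import Pool.Agent.H48.QF.RES
import Pool.Agent.H53.QF.INN
import Pool.Agent.H60.QF.DRP
import Pool.Agent.H60.QF.E2
import Pool.Agent.H60.QF.PRG
import Pool.Agent.H60.QF.ZO

/-!
# Quantum algorithms which ask for the values of gates: all rows
-/

set_option autoImplicit false

open Finset Matrix Pool.Agent.H1.Mono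

namespace Pool.Agent.H79.QF

theorem all_NRM : T_NRM := Pool.Agent.H1.QF.NRMf.pf_NRM
theorem all_STP : T_STP := Pool.Agent.H27.QF.pf_STP
theorem all_HYB : T_HYB := Pool.Agent.H34.QF.pf_HYB
theorem all_PRB : T_PRB := Pool.Agent.H38.QF.pf_PRB all_NRM
theorem all_DRP : T_DRP := Pool.Agent.H60.QF.pf_DRP
theorem all_HIL : T_HIL := Pool.Agent.H45.QF.pf_HIL
theorem all_HA1 : T_HA1 := Pool.Agent.H40.QF.HA1.pf_HA1
theorem all_HA2 : T_HA2 := Pool.Agent.H38.QF.pf_HA2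
theorem all_BLK : T_BLK := Pool.Agent.H13.QF.pf_BLK
theorem all_RES : T_RES := Pool.Agent.H48.QF.pf_RES
theorem all_E1 : T_E1 := Pool.Agent.H45.QF.pf_E1 all_HIL
theorem all_E2 : T_E2 := Pool.Agent.H60.QF.pf_E2 all_RES all_HA2
theorem all_E3 : T_E3 := Pool.Agent.H45.QF.pf_E3 all_HA2
theorem all_EST : T_EST := Pool.Agent.H45.QF.pf_EST all_E1 all_E2 all_E3
theorem all_PRG : T_PRG := Pool.Agent.H60.QF.pf_PRG all_STP all_EST all_NRM
theorem all_ADV : T_ADV := Pool.Agent.H10.QF.pf_ADV all_PRG Pool.Agent.H53.QF.pf_INN all_HA1 all_NRM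
theorem all_AVX : T_AVX := Pool.Agent.H36.QF.pf_AVX all_HYB all_PRB all_NRM
theorem all_RSM : T_RSM := Pool.Agent.H12.QF.pf_RSM
theorem all_REC : T_REC := Pool.Agent.H16.QF.pf_REC all_BLK all_DRP all_NRM
theorem all_PRL : T_PRL := Pool.Agent.H16.QF.pf_PRL all_AVX all_RSM all_REC
theorem all_ZOC : T_ZOC := Pool.Agent.H16.QF.pf_ZOC
  (Pool.Agent.H97.Mono.fr2 (Pool.Agent.H97.Mono.lvl2 (Pool.Agent.H92.Mono.mom KH)))
  Pool.Agent.H75.Mono.part
theorem all_ZO : T_ZO := Pool.Agent.H60.QF.pf_ZO (Pool.Agent.H10.QF.pf_ZOT all_ZOC)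
theorem all_SLC : T_SLC := Pool.Agent.H1.QF.SLCf.pf_SLC Pool.Agent.H34.QF.pf_BLD
theorem all_TRE : T_TRE := Pool.Agent.H34.QF.pf_TRE

end Pool.Agent.H79.QF
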