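import Pool.Agent.H78.FG.Cor

/-!
# Quantum algorithms which ask for the values of the gates of a monotone circuit: definitions
-/

set_option autoImplicit false

open Finset Matrix Pool.Agent.H1.Mono

namespace Pool.Agent.H79.QF

/-- A quantum algorithm with queries to the gates of a circuit with `s` gates. In one round the basis
state `i` asks for the values of the gates in `ask i`; the state is multiplied by `-1` for each of
them which is true. Between the queries arbitrary unitary matrices are applied. -/
structure GQ (s : ℕ) where
  /-- the computational basis -/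
  basis : Type
  [fin : Fintype basis]
  [dec : DecidableEq basis]
  /-- the gates whose values are asked by the basis state -/
  ask : basis → Finset (Fin s)
  /-- the number of rounds -/
  T : ℕ
  /-- the operations between the rounds -/
  U : ℕ → Matrix basis basis ℂ
  unitary : ∀ t, U t ∈ Matrix.unitaryGroup basis ℂ
  /-- the initial state -/
  init : basis → ℂ
  norm_init : ∑ i, ‖init i‖ ^ 2 = 1
  /-- the accepting basis states -/
  acc : Finset basis

attribute [instance] GQ.fin GQ.dec

namespace GQ

variable {s : ℕ} (Q : GQ s)

open Classical in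
/-- The factor by which the basis state `i` is multiplied in one round, when `v` is the set of the
true gates. -/
noncomputable def phase (v : Fin s → Prop) (i : Q.basis) : ℂ :=
  ∏ u ∈ Q.ask i, if v u then -1 else 1

/-- The state after `t` rounds. -/
noncomputable def state (v : Fin s → Prop) : ℕ → (Q.basis → ℂ)
  | 0 => Q.U 0 *ᵥ Q.init
  | t + 1 => Q.U (t + 1) *ᵥ fun i => Q.phase v i * state v t i

/-- The acceptance probability. -/
noncomputable def prob (v : Fin s → Prop) : ℝ := ∑ i ∈ Q.acc, ‖Q.state v Q.T i‖ ^ 2

/-- In each round at most `P` gates are asked. -/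
def Par (P : ℕ) : Prop := ∀ i, (Q.ask i).card ≤ P

open Classical in
/-- the weight, after `j` rounds, of the basis states which ask for a gate in `D` -/
noncomputable def wt (v : Fin s → Prop) (j : ℕ) (D : Fin s → Prop) : ℝ :=
  ∑ i, if ∃ u ∈ Q.ask i, D u then ‖Q.state v j i‖ ^ 2 else 0

/-- the real part of the inner product of the states after `j` rounds -/
noncomputable def ip (v v' : Fin s → Prop) (j : ℕ) : ℝ :=
  ∑ i, (star (Q.state v j i) * Q.state v' j i).re

/-- the distance of the states after `j` rounds -/
noncomputable def dist (v v' : Fin s → Prop) (j : ℕ) : ℝ :=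
  Real.sqrt (∑ i, ‖Q.state v j i - Q.state v' j i‖ ^ 2)

end GQ

/-- Rising families of inputs `a y t`, and inputs `p y t x`, for the sequences `y` of elements of
`Ω` and `x` in `X`; an input is given by the set of the true gates. `a y t` and `p y t x` depend only
on the first `t` entries of `y`. The zero-one law: if a gate is false on `a y (t + 1)` for at least
half of the choices of the entry `t` of `y`, then it is true on `p y t x` only for a fraction `1 / R`
of the `x` -/
structure Ch (R s : ℕ) (Ω X : Type) [Fintype Ω] [Fintype X] where
  a : (Fin R → Ω) → ℕ → Fin s → Prop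
  p : (Fin R → Ω) → ℕ → X → Fin s → Prop
  mono : ∀ y t u, t < R → a y t u → a y (t + 1) u
  le : ∀ y t x u, a y t u → p y t x u
  dep : ∀ y y' t, (∀ i : Fin R, i.1 < t → y i = y' i) → a y t = a y' t ∧ p y t = p y' t
  zo : ∀ y (t : Fin R) u, Fintype.card Ω ≤
    2 * Nat.card {ω : Ω // ¬ a (Function.update y t ω) (t.1 + 1) u} →
    R * Nat.card {x : X // p y t.1 x u} ≤ Fintype.card X

section chain

variable {R s : ℕ} {Ω X : Type} [Fintype Ω] [Fintype X] (K : Ch R s Ω X)

/-- the gate `u` will probably be true on `a y (t + 1)`, when the entry `t` of `y` is chosen at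
random -/
def Ch.B (y : Fin R → Ω) (t : ℕ) (u : Fin s) : Prop :=
  ∀ h : t < R, ¬ (Fintype.card Ω ≤
    2 * Nat.card {ω : Ω // ¬ K.a (Function.update y ⟨t, h⟩ ω) (t + 1) u})

/-- the progress -/
noncomputable def Ch.Phi (Q : GQ s) (j : ℕ) : ℝ :=
  ∑ y : Fin R → Ω, ∑ x : X, ∑ t ∈ range R, ∑ r ∈ range (t + 1),
    Q.ip (K.a y r) (K.p y t x) j / ((t : ℝ) - r + 1)

end chain

/-- `α y t` depends only on the first `t` entries of `y` -/
def Dep {R : ℕ} {Ω β : Type} (α : (Fin R → Ω) → ℕ → β) : Prop :=
  ∀ y y' t, (∀ i : Fin R, i.1 < t → y i = y' i) → α y t = α y' t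

/-! ### Decision trees which ask for gates -/

/-- decision trees which ask for the values of gates -/
inductive GT (s : ℕ) : Type
  | leaf (b : Bool) : GT s
  | node (u : Fin s) (l r : GT s) : GT s

open Classical in
/-- the answer of the tree: at the node `node u l r` it goes to `l` if the gate `u` is true -/
noncomputable def GT.eval {s : ℕ} (v : Fin s → Prop) : GT s → Bool
  | .leaf b => b
  | .node u l r => if v u then l.eval v else r.eval v

/-- the number of questions -/
def GT.depth {s : ℕ} : GT s → ℕ
  | .leaf _ => 0
  | .node _ l r => max l.depth r.depth + 1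

end Pool.Agent.H79.QF
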