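import Pool.Agent.H79.QF.Targets

/-!
# Quantum algorithms which ask for the values of gates: assembly
-/

set_option autoImplicit false

open Finset Matrix Pool.Agent.H1.Mono

namespace Pool.Agent.H79.QF

/-- the circuit with another output gate -/
def outg {ι : Type} {s : ℕ} (C : MonCircuit ι s) (u : Fin s) : MonCircuit ι s where
  isAnd := C.isAnd
  ins := C.ins
  gates := C.gates
  lt := C.lt
  out := u

lemma outg_val {ι : Type} {s : ℕ} (C : MonCircuit ι s) (u : Fin s) (A : ι → Bool) :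
    ∀ (k : ℕ) (t : Fin s), t.1 = k → ((outg C u).Val A t ↔ C.Val A t) := by
  intro k
  induction k using Nat.strong_induction_on with
  | _ k ih =>
    intro t ht
    have hg : ∀ w ∈ C.gates t, ((outg C u).Val A w ↔ C.Val A w) := fun w hw =>
      ih w.1 (by rw [← ht]; exact C.lt t w hw) w rfl
    by_cases h : C.isAnd t = true
    · rw [MonCircuit.val_and (outg C u) A (t := t) h, MonCircuit.val_and C A h]
      refine and_congr Iff.rfl (forall₂_congr fun w hw => hg w hw)
    · rw [MonCircuit.val_or (outg C u) A (t := t) h, MonCircuit.val_or C A h]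
      refine or_congr Iff.rfl ?_
      constructor
      · rintro ⟨w, hw, h1⟩
        exact ⟨w, hw, (hg w hw).1 h1⟩
      · rintro ⟨w, hw, h1⟩
        exact ⟨w, hw, (hg w hw).2 h1⟩

lemma outg_accepts {ι : Type} {s : ℕ} (C : MonCircuit ι s) (u : Fin s) (A : ι → Bool) :
    (outg C u).Accepts A ↔ C.Val A u :=
  outg_val C u A u.1 u rfl

/-- the lower bound -/
theorem lower (hZO : T_ZO) (hADV : T_ADV) (hPRL : T_PRL) (n m : ℕ) (hn : 2 ≤ n)
    (M : Finset (Fin m)) (hM : M.Nonempty) (D ε : ℝ) (hD : 0 < D)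
    (hDB : D ≤ min (Real.logb 2 (2 * M.card * n)) (Real.sqrt n)) (hε0 : 0 ≤ ε) (hε : ε < 1 / 2)
    (s : ℕ) (C : MonCircuit (Fin m × (Fin n × Bool)) s) (Q : Formula n m → GQ s) (T P : ℕ)
    (hQ : ∀ F F' : Formula n m, (∀ j ∉ M, ∀ l, F (j, l) = F' (j, l)) → Q F = Q F')
    (hdec : ∀ F : Formula n m, (Q F).T = T ∧ (Q F).Par P ∧ (Narrow (Nat.log 2 M.card) F →
      (Satisfiable F → 1 - ε ≤ (Q F).prob (C.Val F)) ∧
      (¬ Satisfiable F → (Q F).prob (C.Val F) ≤ ε)))
    (hTP : (P = 1 ∧ 24 * (T : ℝ) ≤ (1 - 2 * Real.sqrt (ε * (1 - ε))) *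
        (min (Real.logb 2 (2 * M.card * n)) (Real.sqrt n) - D)) ∨
      (2048 * (T : ℝ) ^ 4 * P / (1 - 2 * ε) ^ 2) ^ T ≤
        2 ^ (min (Real.logb 2 (2 * M.card * n)) (Real.sqrt n) - D)) :
    (2 : ℝ) ^ ((1 - 15 * Real.logb 2 n / D) * n) ≤ s := by
  classical
  set B := min (Real.logb 2 (2 * M.card * n)) (Real.sqrt n) with hB
  have hs1 : (1 : ℝ) ≤ s := by
    have : 1 ≤ s := by
      have := C.out.2
      omega
    exact_mod_cast this
  rcases lt_or_ge D (15 * Real.logb 2 n) with hDx | hDx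
  · refine le_trans ?_ hs1
    refine Real.rpow_le_one_of_one_le_of_nonpos (by norm_num) ?_
    have h3 : 1 ≤ 15 * Real.logb 2 n / D := by
      rw [le_div_iff₀ hD]
      linarith
    have h4 : (0 : ℝ) ≤ n := Nat.cast_nonneg n
    exact mul_nonpos_of_nonpos_of_nonneg (by linarith) h4
  by_contra hlt
  rw [not_le] at hlt
  obtain ⟨R, hR, Ω, X, iΩ, iX, nΩ, nX, A, PP, h1, h2, h3, h4, h5, h6, h7, h8, h9⟩ :=
    hZO n m hn M hM D hDx hDB
  rw [← hB] at hR
  let K : Ch R s Ω X :=
    { a := fun y t u => C.Val (A y t) u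
      p := fun y t x u => C.Val (PP y t x) u
      mono := fun y t u _ h => C.mono (h1 y t) u h
      le := fun y t x u h => C.mono (h2 y t x) u h
      dep := fun y y' t h => by
        obtain ⟨ha, hp⟩ := h3 y y' t h
        rw [ha, hp]
        exact ⟨rfl, rfl⟩
      zo := fun y t u h => by
        have h10 := h9 s (outg C u) hlt y t
        simp only [outg_accepts] at h10
        exact h10 h }
  have h6' : ∀ y t x, ∀ j ∉ M, ∀ l, PP y t x (j, l) = true := fun y t x j hj l =>
    h2 y t x _ (h6 y t j hj l)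
  obtain ⟨ω0⟩ := nΩ
  set F0 := A (fun _ => ω0) 0 with hF0
  have hQA : ∀ y t, Q (A y t) = Q F0 := fun y t => hQ _ _ fun j hj l => by
    rw [h6 y t j hj l, hF0, h6 _ _ j hj l]
  have hQP : ∀ y t x, Q (PP y t x) = Q F0 := fun y t x => hQ _ _ fun j hj l => by
    rw [h6' y t x j hj l, hF0, h6 _ _ j hj l]
  obtain ⟨hT, hPar, -⟩ := hdec F0
  have hpa : ∀ y, ∀ t < R, (Q F0).prob (K.a y t) ≤ ε := by
    intro y t _
    have h10 := ((hdec (A y t)).2.2 (h7 y t)).2 (h4 y t)
    rw [hQA] at h10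
    exact h10
  have hpp : ∀ y, ∀ t < R, ∀ x, 1 - ε ≤ (Q F0).prob (K.p y t x) := by
    intro y t ht x
    have h10 := ((hdec (PP y t x)).2.2 (h8 y t x)).1 (h5 y t ht x)
    rw [hQP] at h10
    exact h10
  have hpos : (0 : ℝ) < 2 ^ (B - D) := Real.rpow_pos_of_pos (by norm_num) _
  have hone : (1 : ℝ) ≤ 2 ^ (B - D) := Real.one_le_rpow (by norm_num) (by linarith)
  have hR0 : (0 : ℝ) < R := by linarith
  have hR1 : 1 ≤ R := by
    have : 0 < R := by exact_mod_cast hR0
    omega
  have : Nonempty Ω := ⟨ω0⟩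
  rcases hTP with ⟨rfl, hT1⟩ | hT1
  · have hA := hADV R s Ω X K (Q F0) ε hR1 hPar hε0 hε.le hpa hpp
    rw [hT] at hA
    have hδ : 0 < 1 - 2 * Real.sqrt (ε * (1 - ε)) := by
      have h10 : Real.sqrt (ε * (1 - ε)) < 1 / 2 := by
        rw [Real.sqrt_lt' (by norm_num)]
        nlinarith [sq_nonneg (1 - 2 * ε), mul_pos (sub_pos.2 hε) (sub_pos.2 hε)]
      linarith
    have hlog : Real.log 2 * (1 + (B - D)) ≤ Real.log R := by
      have h10 : (2 : ℝ) ^ (1 + (B - D)) ≤ R := by
        rw [Real.rpow_add (by norm_num), Real.rpow_one]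
        exact hR.le
      have h11 := Real.log_le_log (by positivity) h10
      rw [Real.log_rpow (by norm_num)] at h11
      linarith
    have hl2 : (0.6931 : ℝ) < Real.log 2 := by
      have := Real.log_two_gt_d9
      linarith
    have hBD : 0 ≤ B - D := by linarith
    have h12 : 0.6931 * (B - D) + 0.19 ≤ Real.log R - 1 / 2 := by nlinarith
    have h13 : (1 - 2 * Real.sqrt (ε * (1 - ε))) * (0.6931 * (B - D) + 0.19) ≤ 81 / 5 * T :=
      (mul_le_mul_of_nonneg_left h12 hδ.le).trans hA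
    have h14 : (1 - 2 * Real.sqrt (ε * (1 - ε))) * (B - D) ≥ 0 := mul_nonneg hδ.le hBD
    nlinarith
  · have hg : 0 < 1 - 2 * ε := by linarith
    have hg1 : (1 - 2 * ε) ^ 2 ≤ 1 := by nlinarith
    have hg2 : 0 < (1 - 2 * ε) ^ 2 := by positivity
    have hcond : 64 * (T : ℝ) ^ 2 * P ≤ (1 - 2 * ε) ^ 2 * R ∧
        (1024 * (T : ℝ) ^ 4 * P / (1 - 2 * ε) ^ 2 + 1) ^ T < (R : ℝ) / 3 + 1 := by
      rcases Nat.eq_zero_or_pos T with rfl | hT0
      · constructor
        · simp only [Nat.cast_zero, ne_eq, OfNat.ofNat_ne_zero, not_false_eq_true, zero_pow,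
            mul_zero, zero_mul]
          positivity
        · rw [pow_zero]
          linarith [div_pos hR0 (by norm_num : (0 : ℝ) < 3)]
      rcases Nat.eq_zero_or_pos P with rfl | hP0
      · constructor
        · simp only [Nat.cast_zero, mul_zero]
          positivity
        · simp only [Nat.cast_zero, mul_zero, zero_div, zero_add, one_pow]
          linarith [div_pos hR0 (by norm_num : (0 : ℝ) < 3)]
      have hTR : (1 : ℝ) ≤ T := by exact_mod_cast hT0
      have hPR : (1 : ℝ) ≤ P := by exact_mod_cast hP0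
      set b : ℝ := 2048 * (T : ℝ) ^ 4 * P / (1 - 2 * ε) ^ 2 with hb
      have hTP1 : 1 ≤ (T : ℝ) ^ 4 * P := one_le_mul_of_one_le_of_one_le (one_le_pow₀ hTR) hPR
      have hb1 : 2048 ≤ b := by
        rw [hb, le_div_iff₀ hg2]
        nlinarith
      have hbT : b ≤ b ^ T := le_self_pow₀ (by linarith) (by omega)
      have hbR : b < R / 2 := by linarith
      constructor
      · have h10 : b * (1 - 2 * ε) ^ 2 = 2048 * (T : ℝ) ^ 4 * P := by
          rw [hb]
          field_simp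
        have h11 : (T : ℝ) ^ 2 * P ≤ (T : ℝ) ^ 4 * P := by
          refine mul_le_mul_of_nonneg_right (pow_le_pow_right₀ hTR (by norm_num)) (by positivity)
        nlinarith [mul_le_mul_of_nonneg_right hbR.le hg2.le]
      · have h10 : 1024 * (T : ℝ) ^ 4 * P / (1 - 2 * ε) ^ 2 + 1 ≤ b * (513 / 1024) := by
          have h11 : 1024 * (T : ℝ) ^ 4 * P / (1 - 2 * ε) ^ 2 = b / 2 := by
            rw [hb]
            ring
          rw [h11]
          linarith
        have h11 : 0 ≤ 1024 * (T : ℝ) ^ 4 * P / (1 - 2 * ε) ^ 2 + 1 := by positivity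
        calc (1024 * (T : ℝ) ^ 4 * P / (1 - 2 * ε) ^ 2 + 1) ^ T ≤ (b * (513 / 1024)) ^ T :=
              pow_le_pow_left₀ h11 h10 T
          _ = b ^ T * (513 / 1024) ^ T := mul_pow _ _ _
          _ ≤ b ^ T * (513 / 1024) := by
              refine mul_le_mul_of_nonneg_left ?_ (by positivity)
              calc ((513 : ℝ) / 1024) ^ T ≤ (513 / 1024) ^ 1 :=
                    pow_le_pow_of_le_one (by norm_num) (by norm_num) hT0
                _ = 513 / 1024 := pow_one _
          _ < (R : ℝ) / 3 + 1 := by nlinarith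
    have hP := hPRL R s Ω X K (Q F0) P ε hR1 hPar hε hpa hpp (by rw [hT]; exact hcond.1)
    rw [hT] at hP
    exact absurd hP (not_le.2 hcond.2)

/-- few classical questions capture all circuits -/
theorem sharp (hSLC : T_SLC) (hTRE : T_TRE) (N s : ℕ) (C : Circuit (Fin N) s) :
    ∃ (s' : ℕ) (C' : MonCircuit (Fin N) s') (t : GT s'),
      s' ≤ 2 * (N + 1) * s + 2 * (N + 2) ^ 3 ∧ t.depth ≤ Nat.clog 2 (N + 1) + 1 ∧
      ∀ A, t.eval (C'.Val A) = true ↔ C.Accepts A := by
  obtain ⟨s', C', th, sl, h1, h2, h3⟩ := hSLC N s C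
  obtain ⟨t, h4, h5⟩ := hTRE s' N th sl
  refine ⟨s', C', t, h1, h4, fun A => ?_⟩
  rw [h5 (C'.Val A) (univ.filter fun i => A i = true).card ?_ fun k hk => h2 A k hk, h3 A]
  exact (card_le_univ _).trans (by rw [Fintype.card_fin])

end Pool.Agent.H79.QF
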