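import Pool.Agent.H79.QF.Defs

/-!
# Quantum algorithms which ask for the values of gates: targets
-/

set_option autoImplicit false

open Finset Matrix Pool.Agent.H1.Mono

namespace Pool.Agent.H79.QF

/-! ### The algorithm -/

/-- NRM: the states are unit vectors -/
def T_NRM : Prop := ∀ (s : ℕ) (Q : GQ s) (v : Fin s → Prop) (j : ℕ), ∑ i, ‖Q.state v j i‖ ^ 2 = 1

/-- INN: unit vectors which are accepted with the probabilities `≤ ε` and `≥ 1 - ε` -/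
def T_INN : Prop := ∀ (ι : Type) [Fintype ι] [DecidableEq ι] (A : Finset ι) (x y : ι → ℂ) (ε : ℝ),
  ∑ i, ‖x i‖ ^ 2 = 1 → ∑ i, ‖y i‖ ^ 2 = 1 → 0 ≤ ε → ε ≤ 1 / 2 → ∑ i ∈ A, ‖x i‖ ^ 2 ≤ ε →
  1 - ε ≤ ∑ i ∈ A, ‖y i‖ ^ 2 → ∑ i, (star (x i) * y i).re ≤ 2 * Real.sqrt (ε * (1 - ε))

open Classical in
/-- STP: the change of the inner product in one round -/
def T_STP : Prop := ∀ (s : ℕ) (Q : GQ s) (v v' : Fin s → Prop) (j : ℕ),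
  |Q.ip v v' (j + 1) - Q.ip v v' j| ≤ 2 * ∑ i, if ∃ u ∈ Q.ask i, ¬ (v u ↔ v' u) then
    ‖Q.state v j i‖ * ‖Q.state v' j i‖ else 0

/-- HYB: the hybrid argument -/
def T_HYB : Prop := ∀ (s : ℕ) (Q : GQ s) (v v' : Fin s → Prop) (j : ℕ),
  Q.dist v v' j ≤ 2 * ∑ l ∈ range j, Real.sqrt (Q.wt v l fun u => ¬ (v u ↔ v' u))

/-- PRB: the acceptance probabilities -/
def T_PRB : Prop := ∀ (s : ℕ) (Q : GQ s) (v v' : Fin s → Prop),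
  |Q.prob v - Q.prob v'| ≤ 2 * Q.dist v v' Q.T

/-- DRP: the first query is replaced by the query to `v0` -/
def T_DRP : Prop := ∀ (s : ℕ) (Q : GQ s) (P : ℕ), Q.Par P → ∀ v0 : Fin s → Prop,
  ∃ Q' : GQ s, Q'.Par P ∧ ∀ (v : Fin s → Prop) (j : ℕ) (D : Fin s → Prop),
    Real.sqrt (Q.wt v (j + 1) D) ≤ Real.sqrt (Q'.wt v j D) +
      2 * Real.sqrt (Q.wt v 0 fun u => ¬ (v u ↔ v0 u))

/-! ### Real numbers -/

/-- HIL: Hilbert's inequality -/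
def T_HIL : Prop := ∀ (R τ : ℕ) (a b : ℕ → ℝ), (∀ i, 0 ≤ a i) → (∀ i, 0 ≤ b i) →
  ∑ t ∈ range R, ∑ r ∈ range (t + 1), (if r ≤ τ ∧ τ < t then a r * b t / ((t : ℝ) - r + 1) else 0) ≤
    2 * (∑ r ∈ range R, a r ^ 2 + ∑ t ∈ range R, b t ^ 2)

/-- HA1: the sum of the harmonic numbers -/
def T_HA1 : Prop := ∀ R : ℕ, 1 ≤ R → (R : ℝ) * (Real.log R - 1 / 2) ≤
  ∑ t ∈ range R, ∑ r ∈ range (t + 1), 1 / ((t : ℝ) - r + 1)

/-- HA2: an upper bound for the harmonic numbers, and the sum of the inverse squares -/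
def T_HA2 : Prop := ∀ R : ℕ, 1 ≤ R → ∑ d ∈ range R, 1 / ((d : ℝ) + 1) ≤ 61 / 50 * Real.sqrt R ∧
  ∑ d ∈ range R, 1 / ((d : ℝ) + 1) ^ 2 ≤ 2

/-- BLK: decomposition into blocks -/
def T_BLK : Prop := ∀ (μ : ℕ → ℝ) (η K : ℝ) (c : ℕ → Prop), 0 < η → 0 ≤ K → (∀ t, 0 ≤ μ t) →
  (∀ a b, a ≤ b → (∀ t, a ≤ t → t < b → ∑ l ∈ Ico a t, μ l ≤ η) →
    (Nat.card {t : ℕ // a ≤ t ∧ t < b ∧ c t} : ℝ) ≤ K) →
  ∀ a b, a ≤ b → (Nat.card {t : ℕ // a ≤ t ∧ t < b ∧ c t} : ℝ) ≤ (∑ l ∈ Ico a b, μ l / η + 1) * K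

open Classical in
/-- RES: resampling of the entry `t` -/
def T_RES : Prop := ∀ (R : ℕ) (Ω : Type) [Fintype Ω] (t : Fin R) (A F : (Fin R → Ω) → Prop)
  (g : (Fin R → Ω) → ℝ), (∀ y, 0 ≤ g y) → (∀ y ω, g (Function.update y t ω) = g y) →
  (∀ y ω, A (Function.update y t ω) ↔ A y) →
  (∀ y, A y → Fintype.card Ω ≤ 2 * Nat.card {ω : Ω // F (Function.update y t ω)}) →
  ∑ y, (if A y then g y else 0) ≤ 2 * ∑ y, (if F y then g y else 0)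

/-! ### Sequential queries -/

open Classical in
/-- E1: the pairs for which the gate becomes true between them -/
def T_E1 : Prop := ∀ (R s : ℕ) (Ω X : Type) [Fintype Ω] [Fintype X] (K : Ch R s Ω X) (u : Fin s)
  (α : (Fin R → Ω) → ℕ → ℝ) (β : (Fin R → Ω) → ℕ → X → ℝ), (∀ y t, 0 ≤ α y t) →
  (∀ y t x, 0 ≤ β y t x) →
  ∑ y, ∑ x, ∑ t ∈ range R, ∑ r ∈ range (t + 1), (if ¬ K.a y r u ∧ K.a y t u then
    α y r * β y t x / ((t : ℝ) - r + 1) else 0) ≤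
  2 * (Fintype.card X * ∑ y, ∑ t ∈ range R, α y t ^ 2 + ∑ y, ∑ x, ∑ t ∈ range R, β y t x ^ 2)

open Classical in
/-- E2: the gates which will probably be true in the next step -/
def T_E2 : Prop := ∀ (R s : ℕ) (Ω X : Type) [Fintype Ω] [Fintype X] (K : Ch R s Ω X) (u : Fin s)
  (α : (Fin R → Ω) → ℕ → ℝ) (β : (Fin R → Ω) → ℕ → X → ℝ), (∀ y t, 0 ≤ α y t) →
  (∀ y t x, 0 ≤ β y t x) → Dep α → Dep β →
  ∑ y, ∑ x, ∑ t ∈ range R, ∑ r ∈ range (t + 1), (if ¬ K.a y t u ∧ K.B y t u then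
    α y r * β y t x / ((t : ℝ) - r + 1) else 0) ≤
  71 / 50 * (Fintype.card X * ∑ y, ∑ t ∈ range R, α y t ^ 2 +
    ∑ y, ∑ x, ∑ t ∈ range R, β y t x ^ 2)

open Classical in
/-- E3: the exceptional `x` -/
def T_E3 : Prop := ∀ (R s : ℕ) (Ω X : Type) [Fintype Ω] [Fintype X] (K : Ch R s Ω X) (u : Fin s)
  (α : (Fin R → Ω) → ℕ → ℝ) (β : (Fin R → Ω) → ℕ → X → ℝ), (∀ y t, 0 ≤ α y t) →
  (∀ y t x, 0 ≤ β y t x) →
  ∑ y, ∑ x, ∑ t ∈ range R, ∑ r ∈ range (t + 1), (if ¬ K.B y t u ∧ K.p y t x u then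
    α y r * β y t x / ((t : ℝ) - r + 1) else 0) ≤
  61 / 100 * (Fintype.card X * ∑ y, ∑ t ∈ range R, α y t ^ 2 +
    ∑ y, ∑ x, ∑ t ∈ range R, β y t x ^ 2)

open Classical in
/-- EST: the three estimates together -/
def T_EST : Prop := ∀ (R s : ℕ) (Ω X : Type) [Fintype Ω] [Fintype X] (K : Ch R s Ω X) (u : Fin s)
  (α : (Fin R → Ω) → ℕ → ℝ) (β : (Fin R → Ω) → ℕ → X → ℝ), (∀ y t, 0 ≤ α y t) →
  (∀ y t x, 0 ≤ β y t x) → Dep α → Dep β →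
  ∑ y, ∑ x, ∑ t ∈ range R, ∑ r ∈ range (t + 1), (if ¬ (K.a y r u ↔ K.p y t x u) then
    α y r * β y t x / ((t : ℝ) - r + 1) else 0) ≤
  81 / 20 * (Fintype.card X * ∑ y, ∑ t ∈ range R, α y t ^ 2 +
    ∑ y, ∑ x, ∑ t ∈ range R, β y t x ^ 2)

/-- PRG: the progress of one query -/
def T_PRG : Prop := ∀ (R s : ℕ) (Ω X : Type) [Fintype Ω] [Fintype X] (K : Ch R s Ω X) (Q : GQ s),
  Q.Par 1 → ∀ j, |K.Phi Q (j + 1) - K.Phi Q j| ≤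
    81 / 5 * (R * Fintype.card (Fin R → Ω) * Fintype.card X)

/-- ADV: the lower bound for sequential queries -/
def T_ADV : Prop := ∀ (R s : ℕ) (Ω X : Type) [Fintype Ω] [Fintype X] [Nonempty Ω] [Nonempty X]
  (K : Ch R s Ω X) (Q : GQ s) (ε : ℝ), 1 ≤ R → Q.Par 1 → 0 ≤ ε → ε ≤ 1 / 2 →
  (∀ y, ∀ t < R, Q.prob (K.a y t) ≤ ε) → (∀ y, ∀ t < R, ∀ x, 1 - ε ≤ Q.prob (K.p y t x)) →
  (1 - 2 * Real.sqrt (ε * (1 - ε))) * (Real.log R - 1 / 2) ≤ 81 / 5 * Q.T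

/-! ### Parallel queries -/

/-- AVX: in some round the gates which will probably be true in the next step have a large weight -/
def T_AVX : Prop := ∀ (R s : ℕ) (Ω X : Type) [Fintype Ω] [Fintype X] [Nonempty X]
  (K : Ch R s Ω X) (Q : GQ s) (P : ℕ) (ε : ℝ), 1 ≤ R → Q.Par P → ε < 1 / 2 →
  (∀ y, ∀ t < R, Q.prob (K.a y t) ≤ ε) → (∀ y, ∀ t < R, ∀ x, 1 - ε ≤ Q.prob (K.p y t x)) →
  64 * (Q.T : ℝ) ^ 2 * P ≤ (1 - 2 * ε) ^ 2 * R →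
  ∀ y, ∀ t < R, ∃ j < Q.T, (1 - 2 * ε) ^ 2 ≤
    64 * (Q.T : ℝ) ^ 2 * Q.wt (K.a y t) j fun u => ¬ K.a y t u ∧ K.B y t u

/-- RSM: so for some `y` the gates which are switched on have a large weight for many `t` -/
def T_RSM : Prop := ∀ (R s : ℕ) (Ω X : Type) [Fintype Ω] [Fintype X] [Nonempty Ω]
  (K : Ch R s Ω X) (Q : GQ s) (g : ℝ), 0 < g →
  (∀ y, ∀ t < R, ∃ j < Q.T, g ≤ Q.wt (K.a y t) j fun u => ¬ K.a y t u ∧ K.B y t u) →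
  ∃ y, R ≤ 3 * Nat.card {t : ℕ // t < R ∧ ∃ j < Q.T, g / 4 ≤ Q.wt (K.a y t) j fun u =>
    ¬ K.a y t u ∧ K.a y (t + 1) u}

/-- REC: the number of the steps for which an algorithm with `T` rounds can pay attention to the
gates which are switched on -/
def T_REC : Prop := ∀ (T s : ℕ) (Q : GQ s) (P : ℕ), Q.Par P → ∀ (v : ℕ → Fin s → Prop) (a b : ℕ),
  (∀ t, a ≤ t → t < b → ∀ u, v t u → v (t + 1) u) → ∀ η γ : ℝ, 0 < η →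
  2 * T * Real.sqrt η ≤ γ →
  (Nat.card {t : ℕ // a ≤ t ∧ t < b ∧ ∃ j < T, γ ^ 2 ≤ Q.wt (v t) j fun u =>
    ¬ v t u ∧ v (t + 1) u} : ℝ) + 1 ≤ (P / η + 1) ^ T

/-- PRL: the lower bound for parallel queries -/
def T_PRL : Prop := ∀ (R s : ℕ) (Ω X : Type) [Fintype Ω] [Fintype X] [Nonempty Ω] [Nonempty X]
  (K : Ch R s Ω X) (Q : GQ s) (P : ℕ) (ε : ℝ), 1 ≤ R → Q.Par P → ε < 1 / 2 →
  (∀ y, ∀ t < R, Q.prob (K.a y t) ≤ ε) → (∀ y, ∀ t < R, ∀ x, 1 - ε ≤ Q.prob (K.p y t x)) →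
  64 * (Q.T : ℝ) ^ 2 * P ≤ (1 - 2 * ε) ^ 2 * R →
  (R : ℝ) / 3 + 1 ≤ (1024 * (Q.T : ℝ) ^ 4 * P / (1 - 2 * ε) ^ 2 + 1) ^ Q.T

/-! ### The hard formulas -/

/-- the families of the hard formulas, with the zero-one law for every monotone circuit with fewer
than `S` gates -/
def Hard (n m : ℕ) (M : Finset (Fin m)) (w R : ℕ) (S : ℝ) : Prop :=
  ∃ (Ω X : Type) (_ : Fintype Ω) (_ : Fintype X) (_ : Nonempty Ω) (_ : Nonempty X)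
    (A : (Fin R → Ω) → ℕ → Formula n m) (P : (Fin R → Ω) → ℕ → X → Formula n m),
    (∀ y t l, A y t l = true → A y (t + 1) l = true) ∧
    (∀ y t x l, A y t l = true → P y t x l = true) ∧
    (∀ y y' t, (∀ i : Fin R, i.1 < t → y i = y' i) → A y t = A y' t ∧ P y t = P y' t) ∧
    (∀ y t, ¬ Satisfiable (A y t)) ∧ (∀ y, ∀ t < R, ∀ x, Satisfiable (P y t x)) ∧
    (∀ y t, ∀ j ∉ M, ∀ l, A y t (j, l) = true) ∧
    (∀ y t, Narrow w (A y t)) ∧ (∀ y t x, Narrow w (P y t x)) ∧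
    ∀ (s : ℕ) (C : MonCircuit (Fin m × (Fin n × Bool)) s), (s : ℝ) < S →
      ∀ (y : Fin R → Ω) (t : Fin R), Fintype.card Ω ≤
        2 * Nat.card {ω : Ω // ¬ C.Accepts (A (Function.update y t ω) (t.1 + 1))} →
        R * Nat.card {x : X // C.Accepts (P y t.1 x)} ≤ Fintype.card X

/-- ZOC: the construction, with all parameters (compare `Pool.Agent.H78.FG.core`) -/
def T_ZOC : Prop := ∀ {n m σ ν h a b j0 Δ : ℕ} {lam T0 : ℝ} {M : Finset (Fin m)},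
  ν = h + 1 → 2 ≤ h → h ≤ 2 ^ a → 2 ^ a ≤ 2 * h → σ + ν * b ≤ n →
  2 ^ σ * (ν ^ 2 * 4 ^ b) ≤ M.card → 0 < n → 0 < lam → lam < 1 → 0 ≤ T0 → 0 < Δ →
  4 * 2 * j0 ^ 2 ≤ 2 ^ a → j0 ≤ h →
  (∀ j : ℕ, j0 < j → j ≤ ν → ((2 ^ b : ℕ) : ℝ) ^ (ν - j) ≤ T0 * lam ^ j) →
  32 * Δ * (ν : ℝ) ^ 2 * 4 ^ a * lam ≤ 1 → ∀ S : ℝ,
  (∀ s : ℕ, (s : ℝ) < S → 2 * 2 * (s * (2 * 2 ^ b * 2 ^ a) ^ ν) < 2 ^ Δ ∧
    (s * (1 / lam) ^ ν + T0) * 2 ^ σ ≤ 2 ^ (b * ν)) →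
  Hard n m M (σ + 2 * b) (2 ^ σ) S

/-- ZOT: the choice of the parameters (compare `Pool.Agent.H78.FG.trade`) -/
def T_ZOT : Prop := ∀ {n m L r : ℕ} {M : Finset (Fin m)} {D : ℝ}, 2 ≤ n → L ^ 2 ≤ n → r < L →
  2 ^ L ≤ M.card → 15 * Real.logb 2 n ≤ D → D ^ 2 ≤ n → D < (L : ℝ) - r + 2 + Real.logb 2 n →
  Hard n m M L (2 ^ (r + 2)) (2 ^ ((n : ℝ) * (1 - 15 * Real.logb 2 n / D)))

/-- ZO: the hard formulas (compare `Pool.Agent.H78.FG.main`) -/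
def T_ZO : Prop := ∀ (n m : ℕ), 2 ≤ n → ∀ M : Finset (Fin m), M.Nonempty → ∀ D : ℝ,
  15 * Real.logb 2 n ≤ D → D ≤ min (Real.logb 2 (2 * M.card * n)) (Real.sqrt n) →
  ∃ R : ℕ, 2 * (2 : ℝ) ^ (min (Real.logb 2 (2 * M.card * n)) (Real.sqrt n) - D) < R ∧
    Hard n m M (Nat.log 2 M.card) R (2 ^ ((1 - 15 * Real.logb 2 n / D) * n))

/-! ### Sharpness: few classical questions to monotone circuits capture all circuits -/

/-- BLD: monotone circuits whose gates are indexed by a finite type with a rank -/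
def T_BLD : Prop := ∀ (ι G : Type) [Fintype G] [Nonempty G] (isAnd : G → Bool) (ins : G → Finset ι)
  (gates : G → Finset G) (rk : G → ℕ), (∀ g, ∀ h ∈ gates g, rk h < rk g) →
  ∀ val : (ι → Bool) → G → Prop, (∀ A g, val A g ↔ if isAnd g = true then
    (∀ i ∈ ins g, A i = true) ∧ ∀ h ∈ gates g, val A h else
    (∃ i ∈ ins g, A i = true) ∨ ∃ h ∈ gates g, val A h) →
  ∃ (C : MonCircuit ι (Fintype.card G)) (e : G ≃ Fin (Fintype.card G)),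
    ∀ A g, C.Val A (e g) ↔ val A g

/-- SLC: for every circuit there is a monotone circuit with gates for the thresholds, and gates which
compute the values of the given circuit on the inputs with exactly `k` ones -/
def T_SLC : Prop := ∀ (N s : ℕ) (C : Circuit (Fin N) s), ∃ (s' : ℕ) (C' : MonCircuit (Fin N) s')
  (th : ℕ → Fin s') (sl : ℕ → Fin s'), s' ≤ 2 * (N + 1) * s + 2 * (N + 2) ^ 3 ∧
  (∀ A k, k ≤ N → (C'.Val A (th k) ↔ k ≤ (univ.filter fun i => A i = true).card)) ∧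
  ∀ A, (C'.Val A (sl (univ.filter fun i => A i = true).card) ↔ C.Accepts A)

/-- TRE: binary search -/
def T_TRE : Prop := ∀ (s N : ℕ) (th sl : ℕ → Fin s), ∃ t : GT s, t.depth ≤ Nat.clog 2 (N + 1) + 1 ∧
  ∀ (v : Fin s → Prop) (c : ℕ), c ≤ N → (∀ k ≤ N, (v (th k) ↔ k ≤ c)) →
    (t.eval v = true ↔ v (sl c))

end Pool.Agent.H79.QF
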